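import Mathlib
import Pool.Agent.H57.RothD

namespace Pool.Agent.Results.MP_574c26_nt.Lower

theorem result : ∃ ε : ℝ, 0 < ε ∧ ∀ᶠ N : ℕ in Filter.atTop, ∀ k : ℕ, (k : ℝ) ≤ Real.log N ^ ε →
    ∀ c : ℕ → Fin k, (N : ℝ) / 10 ≤ ((Set.ncard {s : ℕ | ∃ a b : ℕ, 1 ≤ a ∧ a ≤ N ∧ 1 ≤ b ∧ b ≤ N ∧
      a ≠ b ∧ c a = c b ∧ a + b = s} : ℕ) : ℝ) := by
  obtain ⟨ε, h0, _, h⟩ := Pool.Agent.H57.Roth.sums_many_log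
  refine ⟨ε, h0, h.mono fun N hN k hk c => le_trans ?_ (hN k hk c)⟩
  have : (0:ℝ) ≤ N := by positivity
  linarith

end Pool.Agent.Results.MP_574c26_nt.Lower
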