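import Mathlib
import Pool.Agent.H57.SumCol

namespace Pool.Agent.Results.MP_574c26_nt.Upper

theorem result : ∃ C : ℝ, ∀ᶠ N : ℕ in Filter.atTop, ∀ k : ℕ,
    Real.exp (C * Real.log N / Real.log (Real.log N)) ≤ k → k ≤ N →
    ∃ c : ℕ → Fin k, (∀ i : Fin k, ∃ a : ℕ, 1 ≤ a ∧ a ≤ N ∧ c a = i) ∧
      ((Set.ncard {s : ℕ | ∃ a b : ℕ, 1 ≤ a ∧ a ≤ N ∧ 1 ≤ b ∧ b ≤ N ∧
        a ≠ b ∧ c a = c b ∧ a + b = s} : ℕ) : ℝ) < (N : ℝ) / 10 := by
  refine ⟨5000, ?_⟩
  have hl : Filter.Tendsto (fun N : ℕ => Real.log (N : ℝ)) Filter.atTop Filter.atTop :=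
    Real.tendsto_log_atTop.comp tendsto_natCast_atTop_atTop
  filter_upwards [Filter.eventually_ge_atTop (2 ^ 1024), Filter.eventually_ge_atTop 1,
    hl.eventually_gt_atTop 1] with N hN hN1 h1 k hk1 hk2
  obtain ⟨E, hE, h⟩ := Pool.Agent.H57.SumCol.few_sums N hN
  clear hN
  have t2 := Nat.pow_log_le_self 2 (show N ≠ 0 by omega)
  have t3 := Nat.lt_pow_succ_log_self (by norm_num : 1 < 2) N
  generalize Nat.log 2 N = t at *
  have s3 := Nat.lt_pow_succ_log_self (by norm_num : 1 < 2) t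
  generalize Nat.log 2 t = s at *
  have hNr : (0:ℝ) < N := by exact_mod_cast hN1
  have l2 : (0:ℝ) < Real.log 2 := Real.log_pos (by norm_num)
  have l3 : Real.log 2 < 1 := by have := Real.log_two_lt_d9; linarith
  have a1 : t * Real.log 2 ≤ Real.log N := by
    rw [← Real.log_pow]
    exact Real.log_le_log (by positivity) (by exact_mod_cast t2)
  have a2 : Real.log N ≤ 2 ^ (s + 1) := by
    have b1 : Real.log N ≤ (t + 1 : ℕ) * Real.log 2 := by
      rw [← Real.log_pow]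
      exact Real.log_le_log hNr (by exact_mod_cast t3.le)
    have b2 : ((t + 1 : ℕ) : ℝ) ≤ 2 ^ (s + 1) := by exact_mod_cast s3
    have b3 : (0:ℝ) ≤ (t + 1 : ℕ) := by positivity
    nlinarith
  have a3 : Real.log (Real.log N) ≤ (s + 1 : ℕ) * Real.log 2 := by
    rw [← Real.log_pow]
    exact Real.log_le_log (by linarith) a2
  have a4 : 0 < Real.log (Real.log N) := Real.log_pos h1
  have a5 : (E:ℝ) ≤ 5000 * Real.log N / Real.log (Real.log N) := by
    rw [le_div_iff₀ a4]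
    have b1 : (E:ℝ) * (s + 1 : ℕ) ≤ 5000 * t := by exact_mod_cast hE
    have b2 : (0:ℝ) ≤ E := by positivity
    calc E * Real.log (Real.log N) ≤ E * ((s + 1 : ℕ) * Real.log 2) := by gcongr
      _ = (E * (s + 1 : ℕ)) * Real.log 2 := by ring
      _ ≤ 5000 * t * Real.log 2 := by gcongr
      _ ≤ _ := by linarith
  have a6 : ((2 ^ E : ℕ) : ℝ) ≤ k := by
    calc ((2 ^ E : ℕ) : ℝ) = 2 ^ E := by push_cast; rfl
      _ ≤ Real.exp 1 ^ E := by
        gcongr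
        have := Real.add_one_le_exp 1
        linarith
      _ = Real.exp E := by rw [← Real.exp_nat_mul, mul_one]
      _ ≤ _ := le_trans (by gcongr) hk1
  obtain ⟨c, h2, h3⟩ := h k (by exact_mod_cast a6) hk2
  refine ⟨c, h2, ?_⟩
  have h4 : (20:ℝ) * (Set.ncard {s : ℕ | ∃ a b : ℕ, 1 ≤ a ∧ a ≤ N ∧ 1 ≤ b ∧ b ≤ N ∧
      a ≠ b ∧ c a = c b ∧ a + b = s} : ℕ) ≤ N := by exact_mod_cast h3
  linarith

end Pool.Agent.Results.MP_574c26_nt.Upper
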